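import Pool.Agent.TH173.RT.Near
import Pool.Agent.TH173.RT.Mono

/-!
# A uniform upper bound for the Turán densities

`t(k,r) ≤ 52 (k - r) (log r) / C(k,r)` for all `k > r ≥ 2`.
-/

set_option autoImplicit false
open Finset Filter Topology

namespace Pool.Agent.R80.UB
open Pool.Agent.TH173.RT

/-- disjoint unions -/
theorem TT_mul {n a m r : ℕ} (hra : r ≤ a + 1) :
    TT (m * n) (m * a + 1) r ≤ m * TT n (a + 1) r := by
  classical
  obtain ⟨E, hE, hc⟩ := TT_spec (n := n) hra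
  set E' : Finset (Finset (Fin m × Fin n)) :=
    (univ : Finset (Fin m)).biUnion fun i => E.image fun e => e.image fun x => (i, x) with hE'
  have hinj : ∀ i : Fin m, Function.Injective fun x : Fin n => (i, x) := by
    intro i x y h
    simpa using h
  have hcov : Cov (m * a + 1) r E' := by
    constructor
    · intro e he
      rw [hE', mem_biUnion] at he
      obtain ⟨i, -, he⟩ := he
      obtain ⟨f, hf, rfl⟩ := mem_image.1 he
      rw [card_image_of_injective _ (hinj i)]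
      exact hE.1 f hf
    · intro S hS
      obtain ⟨i, -, hi⟩ := exists_lt_card_fiber_of_mul_lt_card_of_maps_to (s := S)
        (t := (univ : Finset (Fin m))) (f := Prod.fst) (n := a) (fun _ _ => mem_univ _)
        (by rw [card_univ, Fintype.card_fin, hS]; omega)
      have h1 : a + 1 ≤ ((S.filter fun x => x.1 = i).image Prod.snd).card := by
        rw [card_image_of_injOn]
        · exact hi
        · rintro ⟨x1, x2⟩ hx ⟨y1, y2⟩ hy hxy
          simp only [coe_filter, Set.mem_ofPred_eq] at hx hy hxy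
          rw [hx.2, hy.2, hxy]
      obtain ⟨U, hU, hUc⟩ := exists_subset_card_eq h1
      obtain ⟨e, he, heU⟩ := hE.2 U hUc
      refine ⟨e.image fun x => (i, x), ?_, ?_⟩
      · rw [hE', mem_biUnion]
        exact ⟨i, mem_univ _, mem_image_of_mem _ he⟩
      · intro z hz
        obtain ⟨x, hx, rfl⟩ := mem_image.1 hz
        obtain ⟨y, hy, hyx⟩ := mem_image.1 (hU (heU hx))
        rw [mem_filter] at hy
        obtain ⟨hyS, hy1⟩ := hy
        have : y = (i, x) := by
          rw [← hy1, ← hyx]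
        rwa [← this]
  have h2 := TT_le' finProdFinEquiv hcov
  refine h2.trans ?_
  rw [hE']
  refine card_biUnion_le.trans ?_
  refine (sum_le_card_nsmul _ _ E.card (fun i _ => card_image_le)).trans ?_
  rw [card_univ, Fintype.card_fin, smul_eq_mul, hc]

theorem TT_mono {n k k' r : ℕ} (hrk : r ≤ k) (hkk : k ≤ k') : TT n k' r ≤ TT n k r := by
  obtain ⟨E, hE, hc⟩ := TT_spec (n := n) hrk
  rw [← hc]
  apply TT_le
  refine ⟨hE.1, fun S hS => ?_⟩
  obtain ⟨U, hU, hUc⟩ := exists_subset_card_eq (show k ≤ S.card by omega)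
  obtain ⟨e, he, heU⟩ := hE.2 U hUc
  exact ⟨e, he, heU.trans hU⟩

theorem dens_mono {k k' r : ℕ} (hrk : r ≤ k) (hkk : k ≤ k') {t t' : ℝ} (h : Dens k r t)
    (h' : Dens k' r t') : t' ≤ t := by
  refine le_of_tendsto_of_tendsto' h' h fun n => ?_
  have : (TT n k' r : ℝ) ≤ (TT n k r : ℝ) := by exact_mod_cast TT_mono hrk hkk
  exact div_le_div_of_nonneg_right this (Nat.cast_nonneg _)

theorem dens_mul {a m r : ℕ} (hm : 1 ≤ m) (hr : 1 ≤ r) (hra : r ≤ a + 1) {t t' : ℝ}
    (h : Dens (a + 1) r t) (h' : Dens (m * a + 1) r t') : t' * (m : ℝ) ^ (r - 1) ≤ t := by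
  have h1 : Tendsto (fun n : ℕ => (TT (m * n) (m * a + 1) r : ℝ) / ((m * n).choose r : ℝ) *
      (m : ℝ) ^ (r - 1)) atTop (𝓝 (t' * (m : ℝ) ^ (r - 1))) := by
    refine Tendsto.mul_const _ ?_
    exact h'.comp (tendsto_id.const_mul_atTop' (by omega : 0 < m))
  refine le_of_tendsto_of_tendsto h1 h ?_
  filter_upwards [eventually_ge_atTop r] with n hn
  have hm0 : (0 : ℝ) < m := by exact_mod_cast hm
  have p1 : (0 : ℝ) < (n.choose r : ℝ) := by exact_mod_cast Nat.choose_pos hn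
  have hb : m ^ r * n.choose r ≤ (n * m).choose r := choose_blow n m r hm hn
  rw [Nat.mul_comm n m] at hb
  have hb' : (m : ℝ) ^ r * (n.choose r : ℝ) ≤ ((m * n).choose r : ℝ) := by exact_mod_cast hb
  have p2 : (0 : ℝ) < ((m * n).choose r : ℝ) := lt_of_lt_of_le (by positivity) hb'
  have hT : (TT (m * n) (m * a + 1) r : ℝ) ≤ m * TT n (a + 1) r := by
    exact_mod_cast TT_mul (n := n) (m := m) hra
  rw [div_mul_eq_mul_div, div_le_div_iff₀ p2 p1]
  have e : (m : ℝ) ^ r = (m : ℝ) ^ (r - 1) * m := by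
    rw [← pow_succ]
    congr 1
    omega
  calc (TT (m * n) (m * a + 1) r : ℝ) * (m : ℝ) ^ (r - 1) * (n.choose r : ℝ)
      ≤ (m * TT n (a + 1) r) * (m : ℝ) ^ (r - 1) * (n.choose r : ℝ) := by gcongr
    _ = TT n (a + 1) r * ((m : ℝ) ^ r * (n.choose r : ℝ)) := by rw [e]; ring
    _ ≤ TT n (a + 1) r * ((m * n).choose r : ℝ) := by gcongr

theorem TT_le_dens {n k r : ℕ} (hrk : r ≤ k) {t : ℝ} (h : Dens k r t) :
    (TT n k r : ℝ) ≤ t * (n.choose r : ℝ) := by
  rcases lt_or_ge n r with hn | hn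
  · have h1 := TT_le_choose n k r hrk
    rw [Nat.choose_eq_zero_of_lt hn] at h1
    rw [Nat.choose_eq_zero_of_lt hn, Nat.le_zero.1 h1]
    simp
  · have hm : Monotone fun n : ℕ => (TT (n + r) k r : ℝ) / ((n + r).choose r : ℝ) := by
      apply monotone_nat_of_le_succ
      intro n
      have := ratio_mono hrk (n := n + r) (by omega)
      have e : n + 1 + r = n + r + 1 := by omega
      rw [e]
      exact this
    have h2 : Tendsto (fun n : ℕ => (TT (n + r) k r : ℝ) / ((n + r).choose r : ℝ)) atTop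
        (𝓝 t) := (tendsto_add_atTop_iff_nat r).2 h
    have h3 : (TT (n - r + r) k r : ℝ) / ((n - r + r).choose r : ℝ) ≤ t :=
      hm.ge_of_tendsto h2 (n - r)
    rw [Nat.sub_add_cancel hn] at h3
    have p : (0 : ℝ) < (n.choose r : ℝ) := by exact_mod_cast Nat.choose_pos hn
    rwa [div_le_iff₀ p] at h3

/-- the comparison of binomial coefficients -/
theorem choose_cmp {k a m r : ℕ} (hr : 2 ≤ r) (ha : 2 * r ^ 2 ≤ a) (hk : k ≤ m * (a + 1)) :
    (k.choose r : ℝ) ≤ 2 * (m : ℝ) ^ r * ((a + 1).choose r : ℝ) := by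
  have h1 : (k.choose r : ℝ) ≤ (k : ℝ) ^ r / (r.factorial : ℝ) := Nat.choose_le_pow_div r k
  have h2 : ((a + 1 + 1 - r) ^ r : ℕ) ≤ r.factorial * (a + 1).choose r := by
    rw [← Nat.descFactorial_eq_factorial_mul_choose]
    exact Nat.pow_sub_le_descFactorial (a + 1) r
  have hf : (0 : ℝ) < (r.factorial : ℝ) := by exact_mod_cast Nat.factorial_pos r
  have har : r ≤ a := by nlinarith
  have h3 : ((a : ℝ) + 2 - r) ^ r ≤ (r.factorial : ℝ) * ((a + 1).choose r : ℝ) := by
    have : (((a + 1 + 1 - r : ℕ) : ℝ)) = (a : ℝ) + 2 - r := by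
      rw [Nat.cast_sub (by omega)]
      push_cast
      ring
    rw [← this]
    exact_mod_cast h2
  have ha1 : (0 : ℝ) < (a : ℝ) + 1 := by positivity
  have hr1 : (1 : ℝ) ≤ r := by exact_mod_cast (by omega : 1 ≤ r)
  have ha2 : 2 * (r : ℝ) ^ 2 ≤ a := by exact_mod_cast ha
  -- Bernoulli
  have h4 : (1 : ℝ) / 2 ≤ (((a : ℝ) + 2 - r) / ((a : ℝ) + 1)) ^ r := by
    have hb := one_add_mul_le_pow (a := -(((r : ℝ) - 1) / ((a : ℝ) + 1))) (by
      rw [neg_le_neg_iff, div_le_iff₀ ha1]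
      nlinarith) r
    have e : (1 : ℝ) + -(((r : ℝ) - 1) / ((a : ℝ) + 1)) = ((a : ℝ) + 2 - r) / ((a : ℝ) + 1) := by
      field_simp
      ring
    rw [e] at hb
    refine le_trans ?_ hb
    have : (r : ℝ) * (((r : ℝ) - 1) / ((a : ℝ) + 1)) ≤ 1 / 2 := by
      rw [mul_div_assoc', div_le_div_iff₀ ha1 (by norm_num)]
      nlinarith
    linarith
  have h5 : ((a : ℝ) + 1) ^ r ≤ 2 * ((a : ℝ) + 2 - r) ^ r := by
    rw [div_pow, div_le_div_iff₀ (by norm_num) (by positivity)] at h4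
    linarith
  have h6 : (k : ℝ) ^ r ≤ (m : ℝ) ^ r * ((a : ℝ) + 1) ^ r := by
    rw [← mul_pow]
    have : (k : ℝ) ≤ (m : ℝ) * ((a : ℝ) + 1) := by exact_mod_cast hk
    exact pow_le_pow_left₀ (Nat.cast_nonneg _) this r
  refine h1.trans ?_
  rw [div_le_iff₀ hf]
  have hm : (0 : ℝ) ≤ (m : ℝ) ^ r := by positivity
  calc (k : ℝ) ^ r ≤ (m : ℝ) ^ r * ((a : ℝ) + 1) ^ r := h6
    _ ≤ (m : ℝ) ^ r * (2 * ((a : ℝ) + 2 - r) ^ r) := mul_le_mul_of_nonneg_left h5 hm
    _ ≤ (m : ℝ) ^ r * (2 * ((r.factorial : ℝ) * ((a + 1).choose r : ℝ))) := by gcongr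
    _ = 2 * (m : ℝ) ^ r * ((a + 1).choose r : ℝ) * (r.factorial : ℝ) := by ring

/-- **The uniform upper bound for the Turán densities.** -/
theorem dens_le {k r : ℕ} (hr : 2 ≤ r) (hrk : r < k) {t : ℝ} (h : Dens k r t) :
    t ≤ 52 * ((k : ℝ) - r) * Real.log r / (k.choose r : ℝ) := by
  have hr2 : (2 : ℝ) ≤ r := by exact_mod_cast hr
  have hl2 : Real.log 2 ≤ Real.log r := Real.log_le_log (by norm_num) hr2
  have hl0 : (0.69 : ℝ) < Real.log 2 := lt_trans (by norm_num) Real.log_two_gt_d9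
  have hl : (0.69 : ℝ) < Real.log r := lt_of_lt_of_le hl0 hl2
  have hkr : (1 : ℝ) ≤ (k : ℝ) - r := by
    have : (r : ℝ) + 1 ≤ k := by exact_mod_cast hrk
    linarith
  have hC : (0 : ℝ) < (k.choose r : ℝ) := by exact_mod_cast Nat.choose_pos hrk.le
  rcases le_or_gt k (4 * r ^ 2) with hk | hk
  · -- first case
    have h1 := dens_upper2 hr hrk h
    refine h1.trans ?_
    rw [div_le_div_iff_of_pos_right hC]
    have h2 : Real.log k ≤ 4 * Real.log r := by
      have h3 : (k : ℝ) ≤ 4 * (r : ℝ) ^ 2 := by exact_mod_cast hk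
      have h4 : Real.log k ≤ Real.log (4 * (r : ℝ) ^ 2) :=
        Real.log_le_log (by linarith) h3
      have h5 : Real.log (4 * (r : ℝ) ^ 2) = 2 * Real.log 2 + 2 * Real.log r := by
        rw [Real.log_mul (by norm_num) (by positivity), Real.log_pow]
        have : (4 : ℝ) = 2 ^ 2 := by norm_num
        rw [this, Real.log_pow]
        push_cast
        ring
      linarith
    have h6 : ((k - r : ℕ) : ℝ) = (k : ℝ) - r := by
      rw [Nat.cast_sub hrk.le]
    rw [h6]
    nlinarith [mul_le_mul_of_nonneg_left h2 (by linarith : (0 : ℝ) ≤ (k : ℝ) - r),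
      mul_le_mul hkr hl.le (by norm_num) (by linarith)]
  · -- second case
    set m : ℕ := (k - 1) / (2 * r ^ 2) with hm
    have hr0 : 0 < 2 * r ^ 2 := by positivity
    have hm2 : 2 ≤ m := by
      rw [hm, Nat.le_div_iff_mul_le hr0]
      omega
    set a : ℕ := (k - 1) / m with ha
    have hm0 : 0 < m := by omega
    have ha1 : 2 * r ^ 2 ≤ a := by
      rw [ha, Nat.le_div_iff_mul_le hm0, hm, Nat.mul_comm]
      exact Nat.div_mul_le_self _ _
    have ha2 : a ≤ 4 * r ^ 2 := by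
      rw [ha]
      apply Nat.div_le_of_le_mul
      have h1 : k - 1 < 2 * r ^ 2 * (m + 1) := Nat.lt_mul_div_succ _ hr0
      nlinarith
    have ha3 : m * a ≤ k - 1 := Nat.mul_div_le _ _
    have ha4 : k - 1 < m * (a + 1) := Nat.lt_mul_div_succ _ hm0
    have har : r ≤ a := by nlinarith
    have hma : a ≤ m * a := Nat.le_mul_of_pos_left a hm0
    obtain ⟨t1, ht1⟩ := exists_dens (k := a + 1) (r := r) (by omega)
    obtain ⟨t2, ht2⟩ := exists_dens (k := m * a + 1) (r := r) (by omega)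
    have h1 : t ≤ t2 := dens_mono (by omega) (by omega) ht2 h
    have h2 := dens_mul (by omega) (by omega) (by omega) ht1 ht2
    have h3 := dens_upper2 hr (by omega) ht1
    have h4 := choose_cmp hr ha1 (by omega : k ≤ m * (a + 1))
    set X : ℝ := 4 + 5 * ((a + 1 - r : ℕ) : ℝ) * Real.log ((a + 1 : ℕ) : ℝ) with hX
    have hmr : (0 : ℝ) < (m : ℝ) := by exact_mod_cast hm0
    have hCa : (0 : ℝ) < ((a + 1).choose r : ℝ) := by
      exact_mod_cast Nat.choose_pos (show r ≤ a + 1 by omega)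
    have ht0 : 0 ≤ t := by
      have := dens_lower hrk.le h
      exact le_trans (by positivity) this
    have hmp : (m : ℝ) ^ r = (m : ℝ) ^ (r - 1) * m := by
      rw [← pow_succ]
      congr 1
      omega
    have h5 : t * (k.choose r : ℝ) ≤ 2 * m * X := by
      have h6 : t * (m : ℝ) ^ (r - 1) * ((a + 1).choose r : ℝ) ≤ X := by
        have h7 : t * (m : ℝ) ^ (r - 1) ≤ X / ((a + 1).choose r : ℝ) := by
          refine le_trans ?_ (h2.trans h3)
          gcongr
        rwa [le_div_iff₀ hCa] at h7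
      calc t * (k.choose r : ℝ) ≤ t * (2 * (m : ℝ) ^ r * ((a + 1).choose r : ℝ)) := by gcongr
        _ = 2 * m * (t * (m : ℝ) ^ (r - 1) * ((a + 1).choose r : ℝ)) := by rw [hmp]; ring
        _ ≤ 2 * m * X := by gcongr
    rw [le_div_iff₀ hC]
    refine h5.trans ?_
    have e1 : ((a + 1 - r : ℕ) : ℝ) = (a : ℝ) + 1 - r := by
      rw [Nat.cast_sub (by omega)]
      push_cast
      ring
    have h6 : (m : ℝ) * ((a : ℝ) + 1 - r) ≤ (k : ℝ) - r := by
      have h7 : m * (a + 1) + r ≤ k + m * r := by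
        have h8 : m + r ≤ 1 + m * r := by nlinarith
        have h9 : m * (a + 1) = m * a + m := by ring
        omega
      have h8 : (m : ℝ) * ((a : ℝ) + 1) + r ≤ k + m * r := by exact_mod_cast h7
      linarith
    have h7 : (7 : ℝ) ≤ (a : ℝ) + 1 - r := by
      have : 7 + r ≤ a + 1 := by nlinarith
      have : (7 : ℝ) + r ≤ (a : ℝ) + 1 := by exact_mod_cast this
      linarith
    have h8 : Real.log ((a + 1 : ℕ) : ℝ) ≤ 5 * Real.log r := by
      have h9 : ((a + 1 : ℕ) : ℝ) ≤ 8 * (r : ℝ) ^ 2 := by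
        have : a + 1 ≤ 8 * r ^ 2 := by nlinarith
        exact_mod_cast this
      have h10 : Real.log ((a + 1 : ℕ) : ℝ) ≤ Real.log (8 * (r : ℝ) ^ 2) :=
        Real.log_le_log (by positivity) h9
      have h11 : Real.log (8 * (r : ℝ) ^ 2) = 3 * Real.log 2 + 2 * Real.log r := by
        rw [Real.log_mul (by norm_num) (by positivity), Real.log_pow]
        have : (8 : ℝ) = 2 ^ 3 := by norm_num
        rw [this, Real.log_pow]
        push_cast
        ring
      linarith
    have h9 : 7 * (m : ℝ) ≤ (k : ℝ) - r := by nlinarith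
    have h10 : (m : ℝ) * ((a : ℝ) + 1 - r) * Real.log ((a + 1 : ℕ) : ℝ) ≤
        ((k : ℝ) - r) * (5 * Real.log r) := by
      have h0 : 0 ≤ Real.log ((a + 1 : ℕ) : ℝ) := Real.log_natCast_nonneg _
      exact mul_le_mul h6 h8 h0 (by linarith)
    rw [hX, e1]
    have h11 : 8 * (m : ℝ) ≤ 2 * (((k : ℝ) - r) * Real.log r) := by
      nlinarith [mul_le_mul_of_nonneg_left hl.le (by linarith : (0 : ℝ) ≤ (k : ℝ) - r)]
    calc 2 * (m : ℝ) * (4 + 5 * ((a : ℝ) + 1 - r) * Real.log ((a + 1 : ℕ) : ℝ))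
        = 8 * m + 10 * ((m : ℝ) * ((a : ℝ) + 1 - r) * Real.log ((a + 1 : ℕ) : ℝ)) := by ring
      _ ≤ 2 * (((k : ℝ) - r) * Real.log r) + 10 * (((k : ℝ) - r) * (5 * Real.log r)) := by
          linarith
      _ = 52 * ((k : ℝ) - r) * Real.log r := by ring

end Pool.Agent.R80.UB
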